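import Pool.Agent.H240.GU.Def5

/-!
# GV-10: the norm of the corrections of the metric with explicit constants
-/

set_option autoImplicit false

open Set Filter Topology MeasureTheory
open scoped ContDiff ComplexConjugate Real

noncomputable section

namespace Pool.Agent.H199.GV

open Pool.Agent.Y262.EG Pool.Agent.H240.AL Pool.Agent.H240.GU Pool.Agent.H240.GV

theorem nr_norm (l : ℂ →L[ℝ] ℝ) : ‖l‖ ≤ |l 1| + |l Complex.I| := by
  refine l.opNorm_le_bound (by positivity) fun v => ?_
  have e : v = v.re • (1 : ℂ) + v.im • Complex.I := by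
    apply Complex.ext <;> simp
  have e2 : l v = v.re * l 1 + v.im * l Complex.I := by
    conv_lhs => rw [e]
    rw [map_add, map_smul, map_smul, smul_eq_mul, smul_eq_mul]
  rw [Real.norm_eq_abs, e2]
  refine (abs_add_le _ _).trans ?_
  rw [abs_mul, abs_mul, add_mul]
  have h1 := Complex.abs_re_le_norm v
  have h2 := Complex.abs_im_le_norm v
  have h3 := mul_le_mul_of_nonneg_right h1 (abs_nonneg (l 1))
  have h4 := mul_le_mul_of_nonneg_right h2 (abs_nonneg (l Complex.I))
  linarith

theorem nr_open (x0 δ : ℝ) : IsOpen (Sx x0 δ) := by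
  have : Continuous fun z : ℂ => |z.re - x0| := by fun_prop
  exact isOpen_lt this continuous_const

theorem nr_re (x0 : ℝ) (z : ℂ) :
    HasFDerivAt (fun z : ℂ => z.re - x0) Complex.reCLM z :=
  Complex.reCLM.hasFDerivAt.sub_const x0

/-- the sum is admissible -/
theorem nr_cw {x0 δ : ℝ} (hδ : 0 < δ) {w : ℂ → ℝ} {H : ℝ → ℝ} (hw : Cw x0 δ w)
    (hH : ContDiff ℝ ∞ H) (hH0 : ∀ t, δ / 2 ≤ |t| → H t = 0) :
    Cw x0 δ (fun z => w z + H (z.re - x0)) := by
  refine ⟨?_, ?_, ?_⟩
  · have h1 : ContDiff ℝ ∞ fun z : ℂ => z.re - x0 :=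
      Complex.reCLM.contDiff.sub contDiff_const
    exact hw.sm.add (hH.comp h1).contDiffOn
  · intro z hz
    have h1 : (z + 2 * π * Complex.I).re = z.re := by simp
    show w (z + 2 * π * Complex.I) + H ((z + 2 * π * Complex.I).re - x0) = _
    rw [hw.per z hz, h1]
  · obtain ⟨r, hr, h⟩ := hw.sup
    refine ⟨max r (δ / 2), max_lt hr (by linarith), fun z hz hz1 => ?_⟩
    show w z + H (z.re - x0) = 0
    rw [h z hz ((le_max_left _ _).trans hz1), hH0 _ ((le_max_right _ _).trans hz1), add_zero]

theorem stNr2 (hC : StCx) : StNr2 := by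
  intro M P _ _ _ _ Ω φ pr q x0 δ hU hCo hφ1
  obtain ⟨-, hper, hcx⟩ := hC M P Ω φ pr q x0 δ hU hCo
  have hδ := hCo.δp
  obtain ⟨B, hB0, hB3, hB⟩ : ∃ B : ℝ, 0 < B ∧ B ≤ 3 ∧ ∀ z : ℂ, |z.re - x0| ≤ δ / 2 →
      Real.exp (-φ z) ≤ B := by
    refine ⟨Real.exp 1, Real.exp_pos 1, ?_, fun z hz => ?_⟩
    · have h1 := Real.exp_one_lt_d9
      linarith
    · refine Real.exp_le_exp.2 ?_
      have hz' : z ∈ Sx x0 δ := lt_of_le_of_lt hz (by linarith)
      have h1 := (abs_le.1 (hφ1 z hz')).1
      linarith
  intro w c H cH ε hw hwε hw0 hc hH hH0 hHε hcH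
  have hε : 0 ≤ ε := (abs_nonneg c).trans hc
  have hWw := nr_cw hδ hw hH hH0
  obtain ⟨hs, -, hin, hout, hout2⟩ := hcx _ hWw
  set W : ℂ → ℝ := fun z => w z + H (z.re - x0) with hW
  constructor
  · intro x
    have h1 : |cx pr x0 δ W x| ≤ 2 * ε := by
      by_cases hx : x ∈ pr '' Sx x0 δ
      · obtain ⟨z, hz, rfl⟩ := hx
        rw [hin z hz]
        refine (abs_add_le _ _).trans ?_
        have h2 := (hwε z hz).1
        have h3 := (hHε (z.re - x0)).1
        linarith
      · rw [hout x hx, abs_zero]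
        positivity
    have h2 : |Vm pr x0 δ w c H cH x| ≤ |c| + |cH| + |cx pr x0 δ W x| :=
      (abs_add_le _ _).trans (add_le_add (abs_add_le _ _) le_rfl)
    have h3 : 0 ≤ B * ε := by positivity
    linarith
  · set F : ℂ → ℝ := fun z => Vm pr x0 δ w c H cH (pr z) with hF
    have hFd : ∀ z ∈ Ω, DifferentiableAt ℝ F z := by
      intro z hz
      have h1 : DifferentiableAt ℝ (fun z => cx pr x0 δ W (pr z)) z :=
        (hs.contDiffAt (hU.opn.mem_nhds hz)).differentiableAt (by simp)
      exact h1.const_add (c + cH)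
    -- the collar
    have hcol : ∀ z ∈ Sx x0 δ, Real.exp (-φ z) * ‖fderiv ℝ F z‖ ≤ 3 * B * ε := by
      intro z hz
      rcases le_or_gt |z.re - x0| (δ / 2) with h | h
      · have e1 : F =ᶠ[𝓝 z] fun z => (c + cH) + (w z + H (z.re - x0)) := by
          filter_upwards [(nr_open x0 δ).mem_nhds hz] with y hy
          show (c + cH) + cx pr x0 δ W (pr y) = _
          rw [hin y hy]
        have hwd : HasFDerivAt w (fderiv ℝ w z) z :=
          ((hw.sm.contDiffAt ((nr_open x0 δ).mem_nhds hz)).differentiableAt (by simp)).hasFDerivAt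
        have hHd : HasDerivAt H (deriv H (z.re - x0)) (z.re - x0) :=
          (hH.differentiable (by simp) _).hasDerivAt
        have hHd2 : HasFDerivAt (fun z : ℂ => H (z.re - x0))
            (deriv H (z.re - x0) • Complex.reCLM) z :=
          hHd.comp_hasFDerivAt z (nr_re x0 z)
        have e2 : HasFDerivAt (fun z => (c + cH) + (w z + H (z.re - x0)))
            (fderiv ℝ w z + deriv H (z.re - x0) • Complex.reCLM) z :=
          (hwd.add hHd2).const_add (c + cH)
        rw [e1.fderiv_eq, e2.fderiv]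
        have e3 : ‖fderiv ℝ w z + deriv H (z.re - x0) • Complex.reCLM‖ ≤ 3 * ε := by
          refine (nr_norm _).trans ?_
          have e4 : (fderiv ℝ w z + deriv H (z.re - x0) • Complex.reCLM) 1 =
              px w z + deriv H (z.re - x0) := by
            simp [px]
          have e5 : (fderiv ℝ w z + deriv H (z.re - x0) • Complex.reCLM) Complex.I =
              py w z := by
            simp [py]
          rw [e4, e5]
          have h2 := (hwε z hz).2.1
          have h3 := (hwε z hz).2.2
          have h4 := (hHε (z.re - x0)).2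
          have h5 := abs_add_le (px w z) (deriv H (z.re - x0))
          linarith
        have h6 := hB z h
        have h7 := mul_le_mul h6 e3 (norm_nonneg _) hB0.le
        linarith
      · have e1 : F =ᶠ[𝓝 z] fun _ => c + cH := by
          have hop : IsOpen {y : ℂ | δ / 2 < |y.re - x0|} :=
            isOpen_lt continuous_const (by fun_prop)
          filter_upwards [(nr_open x0 δ).mem_nhds hz, hop.mem_nhds h] with y hy hy2
          show (c + cH) + cx pr x0 δ W (pr y) = _
          have hy3 : δ / 2 ≤ |y.re - x0| := le_of_lt hy2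
          rw [hin y hy]
          show (c + cH) + (w y + H (y.re - x0)) = _
          rw [hw0 y hy hy3, hH0 _ hy3]
          ring
        rw [e1.fderiv_eq, fderiv_const_apply, norm_zero, mul_zero]
        positivity
    intro z hz
    have hK : 3 * B * ε ≤ 10 * ε := by nlinarith
    by_cases hx : pr z ∈ pr '' Sx x0 δ
    · obtain ⟨z1, hz1, hzz⟩ := hx
      refine le_trans ?_ ((hcol z1 hz1).trans hK)
      obtain ⟨θ', r, γ, hr, hsub, hγ, hγz, hγ2, -⟩ := hU.deck z hz z1 (hCo.sub z1 hz1) hzz.symm 0
      have hzb : z ∈ Metric.ball z r := Metric.mem_ball_self hr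
      have hγz' : γ z = z1 := hγz
      obtain ⟨-, -, hd0, hd1⟩ := hγ2 z hzb
      rw [hγz'] at hd1
      have hpos : 0 < ‖deriv γ z‖ := norm_pos_iff.2 hd0
      have hγd : HasDerivAt γ (deriv γ z) z :=
        (hγ.differentiableAt (Metric.ball_mem_nhds z hr)).hasDerivAt
      have e1 : F =ᶠ[𝓝 z] F ∘ γ := by
        filter_upwards [Metric.ball_mem_nhds z hr] with y hy
        show Vm pr x0 δ w c H cH (pr y) = Vm pr x0 δ w c H cH (pr (γ y))
        rw [(hγ2 y hy).2.1]
      have hF1 : HasFDerivAt F (fderiv ℝ F z1) (γ z) := by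
        rw [hγz']
        exact (hFd z1 (hCo.sub z1 hz1)).hasFDerivAt
      have hγr : HasFDerivAt γ
          ((ContinuousLinearMap.toSpanSingleton ℂ (deriv γ z)).restrictScalars ℝ) z :=
        hγd.hasFDerivAt.restrictScalars ℝ
      have e2 := (hF1.comp z hγr).fderiv
      rw [e1.fderiv_eq, e2]
      have e3 : ‖(ContinuousLinearMap.toSpanSingleton ℂ (deriv γ z)).restrictScalars ℝ‖ ≤
          ‖deriv γ z‖ := by
        refine ContinuousLinearMap.opNorm_le_bound _ (norm_nonneg _) fun v => ?_
        rw [ContinuousLinearMap.coe_restrictScalars',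
          ContinuousLinearMap.toSpanSingleton_apply, norm_smul, mul_comm]
      have e4 := (ContinuousLinearMap.opNorm_comp_le (fderiv ℝ F z1)
        ((ContinuousLinearMap.toSpanSingleton ℂ (deriv γ z)).restrictScalars ℝ))
      have e5 : Real.exp (-φ z) * ‖deriv γ z‖ = Real.exp (-φ z1) := by
        have h8 : -φ z = -φ z1 - Real.log ‖deriv γ z‖ := by
          have : φ z1 + Real.log ‖deriv γ z‖ = φ z := hd1
          linarith
        rw [h8, Real.exp_sub, Real.exp_log hpos]
        field_simp
      calc Real.exp (-φ z) * _ ≤ Real.exp (-φ z) * (‖fderiv ℝ F z1‖ * ‖deriv γ z‖) :=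
            mul_le_mul_of_nonneg_left (e4.trans (mul_le_mul_of_nonneg_left e3 (norm_nonneg _)))
              (Real.exp_pos _).le
        _ = (Real.exp (-φ z) * ‖deriv γ z‖) * ‖fderiv ℝ F z1‖ := by ring
        _ = _ := by rw [e5]
    · have e1 : F =ᶠ[𝓝 z] fun _ => c + cH := by
        filter_upwards [hout2 z hz hx] with y hy
        show (c + cH) + cx pr x0 δ W (pr y) = _
        have hy' : cx pr x0 δ W (pr y) = 0 := hy
        rw [hy', add_zero]
      rw [e1.fderiv_eq, fderiv_const_apply, norm_zero, mul_zero]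
      positivity

end Pool.Agent.H199.GV
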